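import Mathlib
open MeasureTheory Real ProbabilityTheory
open scoped ENNReal BigOperators

namespace SignSB

end SignSB
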