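import Pool.Agent.Helper719.Signs.Defs

open MeasureTheory Real ProbabilityTheory
open scoped ENNReal BigOperators

namespace SignSB



theorem box_lift {ι X : Type} [Fintype ι] [DecidableEq ι] [Fintype X] (φ : ι → X → ℝ) (S : Finset ι)
    (b : ι → ℝ) (δ l : ℝ) (hδ : 0 < δ) (hb : ∀ i ∈ S, δ ≤ |b i|)
    (hlift : ∀ t, t ⊆ S → ∃ v : ι → ℝ, (∀ i ∈ S, v i = if i ∈ t then b i else - b i) ∧
      ∀ x, |∑ i, v i * φ i x| ≤ l)
    (y : {i // i ∈ S} → ℝ) (hy : ∀ i, |y i| ≤ δ) :
    ∃ v : ι → ℝ, (∀ i : {i // i ∈ S}, v i = y i) ∧ ∀ x, |∑ i, v i * φ i x| ≤ l := by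
  obtain ⟨P, hP⟩ : ∃ P : Set ({i // i ∈ S} → ℝ), ∀ y, y ∈ P ↔
      ∃ v : ι → ℝ, (∀ i : {i // i ∈ S}, v i = y i) ∧ ∀ x, |∑ i, v i * φ i x| ≤ l :=
    ⟨{y | ∃ v : ι → ℝ, (∀ i : {i // i ∈ S}, v i = y i) ∧ ∀ x, |∑ i, v i * φ i x| ≤ l},
      fun y => Iff.rfl⟩
  have hconv : Convex ℝ P := by
    intro y1 h1 y2 h2 a c ha hc hac
    obtain ⟨v1, hv1, hw1⟩ := (hP y1).mp h1
    obtain ⟨v2, hv2, hw2⟩ := (hP y2).mp h2
    refine (hP _).mpr ⟨fun i => a * v1 i + c * v2 i, ?_, ?_⟩
    · intro i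
      show a * v1 i + c * v2 i = a * y1 i + c * y2 i
      rw [hv1, hv2]
    · intro x
      have e1 : ∑ i, (a * v1 i + c * v2 i) * φ i x =
          a * ∑ i, v1 i * φ i x + c * ∑ i, v2 i * φ i x := by
        rw [Finset.mul_sum, Finset.mul_sum, ← Finset.sum_add_distrib]
        apply Finset.sum_congr rfl
        intro i _
        ring
      rw [e1]
      refine (abs_add_le _ _).trans ?_
      rw [abs_mul, abs_mul, abs_of_nonneg ha, abs_of_nonneg hc]
      have e2 := mul_le_mul_of_nonneg_left (hw1 x) ha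
      have e3 := mul_le_mul_of_nonneg_left (hw2 x) hc
      have e4 : a * l + c * l = l := by rw [← add_mul, hac, one_mul]
      linarith
  have hsub : Set.pi Set.univ (fun i : {i // i ∈ S} => ({-b i, b i} : Set ℝ)) ⊆ P := by
    intro z hz
    obtain ⟨t, ht1, ht2⟩ : ∃ t : Finset ι, t ⊆ S ∧ ∀ i : {i // i ∈ S}, (i : ι) ∈ t ↔ z i = b i := by
      classical
      refine ⟨(Finset.univ.filter (fun i : {i // i ∈ S} => z i = b i)).image Subtype.val, ?_, ?_⟩
      · intro i hi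
        rw [Finset.mem_image] at hi
        obtain ⟨j, _, rfl⟩ := hi
        exact j.2
      · intro i
        rw [Finset.mem_image]
        constructor
        · rintro ⟨j, hj, hji⟩
          rw [Finset.mem_filter] at hj
          have hji' : j = i := Subtype.ext hji
          rw [← hji']
          exact hj.2
        · intro h
          exact ⟨i, Finset.mem_filter.mpr ⟨Finset.mem_univ _, h⟩, rfl⟩
    obtain ⟨v, hv1, hv2⟩ := hlift t ht1
    refine (hP z).mpr ⟨v, ?_, hv2⟩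
    intro i
    rw [hv1 i i.2]
    by_cases h : (i : ι) ∈ t
    · rw [if_pos h, (ht2 i).mp h]
    · rw [if_neg h]
      have h1 : z i = -b i ∨ z i = b i := hz i (Set.mem_univ i)
      rcases h1 with h1 | h1
      · exact h1.symm
      · exact absurd ((ht2 i).mpr h1) h
  have hmem : y ∈ convexHull ℝ (Set.pi Set.univ (fun i : {i // i ∈ S} => ({-b i, b i} : Set ℝ))) := by
    apply mem_convexHull_pi
    intro i _
    rw [convexHull_pair, segment_eq_uIcc, Set.mem_uIcc]
    have h1 : |y i| ≤ |b i| := (hy i).trans (hb i i.2)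
    rw [abs_le] at h1
    rcases le_total 0 (b i) with h2 | h2
    · rw [abs_of_nonneg h2] at h1
      exact Or.inl h1
    · rw [abs_of_nonpos h2, neg_neg] at h1
      exact Or.inr h1
  exact (hP y).mp (convexHull_min hsub hconv hmem)

end SignSB
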