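import Pool.Agent.Helper719.Signs.Defs

open MeasureTheory Real ProbabilityTheory
open scoped ENNReal BigOperators

namespace SignSB



theorem fibre_gen {ι X : Type} [Fintype ι] (φ : ι → X → ℝ) (p : ι → Prop)
    [DecidablePred p] (i1 : Fintype {i // p i}) (i2 : Fintype {i // ¬ p i})
    (B : Set ({i // p i} → ℝ)) (hB : MeasurableSet B) (l : ℝ)
    (hlift : ∀ y ∈ B, ∃ v : ι → ℝ, (∀ i : {i // p i}, v i = y i) ∧ ∀ x, |∑ i, v i * φ i x| ≤ l) :
    volume B * volume {z : {i // ¬ p i} → ℝ | ∀ x, |∑ i, z i * φ i.1 x| ≤ l} ≤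
      volume {v : ι → ℝ | ∀ x, |∑ i, v i * φ i x| ≤ 2 * l} := by
  have hi1 : i1 = Subtype.fintype p := Subsingleton.elim _ _
  have hi2 : i2 = Subtype.fintype (fun i => ¬ p i) := Subsingleton.elim _ _
  subst hi1
  subst hi2
  set K : Set (ι → ℝ) := {v : ι → ℝ | ∀ x, |∑ i, v i * φ i x| ≤ 2 * l} with hK
  set Z : Set ({i // ¬ p i} → ℝ) := {z : {i // ¬ p i} → ℝ | ∀ x, |∑ i, z i * φ i.1 x| ≤ l} with hZ
  have hKc : IsClosed K := by
    rw [hK, Set.ofPred_forall]
    refine isClosed_iInter fun x => isClosed_le ?_ continuous_const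
    fun_prop
  have hKm : MeasurableSet K := hKc.measurableSet
  have hmp := volume_preserving_piEquivPiSubtypeProd (fun _ : ι => ℝ) p
  set e := MeasurableEquiv.piEquivPiSubtypeProd (fun _ : ι => ℝ) p with he
  have h1 : volume (e.symm ⁻¹' K) = volume K :=
    (hmp.symm e).measure_preimage hKm.nullMeasurableSet
  have hK'm : MeasurableSet (e.symm ⁻¹' K) := e.symm.measurable hKm
  rw [← h1, Measure.volume_eq_prod, Measure.prod_apply hK'm]
  have h2 : ∀ y ∈ B, volume Z ≤ volume (Prod.mk y ⁻¹' (e.symm ⁻¹' K)) := by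
    intro y hy
    obtain ⟨v, hv1, hv2⟩ := hlift y hy
    have h3 : volume ((fun z : {i // ¬ p i} → ℝ => z + (fun i : {i // ¬ p i} => - v i.1)) ⁻¹' Z) = volume Z :=
      measure_preimage_add_right volume _ Z
    rw [← h3]
    refine measure_mono ?_
    intro z hz
    show e.symm (y, z) ∈ K
    intro x
    have hz' := hz x
    have hs : ∀ w : ι → ℝ, ∑ i, w i * φ i x =
        ∑ i : {i // p i}, w i.1 * φ i.1 x + ∑ i : {i // ¬ p i}, w i.1 * φ i.1 x := by
      intro w
      exact (Fintype.sum_subtype_add_sum_subtype p (fun i => w i * φ i x)).symm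
    have ha : ∀ i : {i // p i}, (e.symm (y, z)) i.1 = y i := by
      intro i
      have : e (e.symm (y, z)) = (y, z) := e.apply_symm_apply _
      exact congrFun (congrArg Prod.fst this) i
    have hb : ∀ i : {i // ¬ p i}, (e.symm (y, z)) i.1 = z i := by
      intro i
      have : e (e.symm (y, z)) = (y, z) := e.apply_symm_apply _
      exact congrFun (congrArg Prod.snd this) i
    have hv := hv2 x
    rw [hs v] at hv
    rw [hs (e.symm (y, z))]
    have e1 : ∑ i : {i // p i}, (e.symm (y, z)) i.1 * φ i.1 x =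
        ∑ i : {i // p i}, v i.1 * φ i.1 x := by
      refine Finset.sum_congr rfl fun i _ => ?_
      rw [ha i, hv1 i]
    have e2 : ∑ i : {i // ¬ p i}, (e.symm (y, z)) i.1 * φ i.1 x =
        ∑ i : {i // ¬ p i}, (z + (fun i : {i // ¬ p i} => - v i.1)) i * φ i.1 x +
        ∑ i : {i // ¬ p i}, v i.1 * φ i.1 x := by
      rw [← Finset.sum_add_distrib]
      refine Finset.sum_congr rfl fun i _ => ?_
      rw [hb i, Pi.add_apply]
      ring
    rw [e1, e2]
    have hz2 : |∑ i : {i // ¬ p i}, (z + (fun i : {i // ¬ p i} => - v i.1)) i * φ i.1 x| ≤ l := hz'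
    rw [abs_le] at hz2 hv ⊢
    constructor <;> linarith [hz2.1, hz2.2, hv.1, hv.2]
  calc volume B * volume Z = ∫⁻ _ in B, volume Z := by
        rw [setLIntegral_const, mul_comm]
    _ ≤ ∫⁻ y in B, volume (Prod.mk y ⁻¹' (e.symm ⁻¹' K)) := by
        exact setLIntegral_mono' hB h2
    _ ≤ ∫⁻ y, volume (Prod.mk y ⁻¹' (e.symm ⁻¹' K)) := setLIntegral_le_lintegral _ _

theorem fibre {ι X : Type} [Fintype ι] [DecidableEq ι] [Fintype X] (φ : ι → X → ℝ) (S : Finset ι)
    (B : Set ({i // i ∈ S} → ℝ)) (hB : MeasurableSet B) (l : ℝ)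
    (hlift : ∀ y ∈ B, ∃ v : ι → ℝ, (∀ i : {i // i ∈ S}, v i = y i) ∧ ∀ x, |∑ i, v i * φ i x| ≤ l) :
    volume B * volume {z : {i // i ∉ S} → ℝ | ∀ x, |∑ i, z i * φ i.1 x| ≤ l} ≤
      volume {v : ι → ℝ | ∀ x, |∑ i, v i * φ i x| ≤ 2 * l} :=
  fibre_gen φ (fun i => i ∈ S) _ _ B hB l hlift

end SignSB
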