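import Pool.Agent.Helper719.Signs.Defs

open MeasureTheory Real ProbabilityTheory
open scoped ENNReal BigOperators

namespace SignSB



theorem int_exp (h a : ℝ) (hh : 0 < h) :
    ∫ z, Set.indicator (Set.Icc (-h) h) (fun z => Real.exp (a * z)) z ≤ 2 * h * Real.exp (a^2 * h^2 / 2) := by
  rw [integral_indicator measurableSet_Icc]
  have hconv : ∀ z ∈ Set.Icc (-h) h, Real.exp (a * z) ≤ Real.cosh (a * h) + z * (Real.sinh (a * h) / h) := by
    intro z hz
    have h1 : 0 ≤ (h + z) / (2 * h) := div_nonneg (by linarith [hz.1]) (by linarith)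
    have h2 : 0 ≤ (h - z) / (2 * h) := div_nonneg (by linarith [hz.2]) (by linarith)
    have h3 : (h + z) / (2 * h) + (h - z) / (2 * h) = 1 := by field_simp; ring
    have hc := convexOn_exp.2 (Set.mem_univ (a * h)) (Set.mem_univ (-(a * h))) h1 h2 h3
    simp only [smul_eq_mul] at hc
    have e1 : (h + z) / (2 * h) * (a * h) + (h - z) / (2 * h) * (-(a * h)) = a * z := by
      field_simp; ring
    rw [e1] at hc
    refine hc.trans (le_of_eq ?_)
    rw [Real.cosh_eq, Real.sinh_eq]
    field_simp
    ring
  have hI1 : IntegrableOn (fun z : ℝ => Real.exp (a * z)) (Set.Icc (-h) h) :=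
    (Continuous.continuousOn (by fun_prop)).integrableOn_compact isCompact_Icc
  have hI2 : IntegrableOn (fun z : ℝ => Real.cosh (a * h) + z * (Real.sinh (a * h) / h)) (Set.Icc (-h) h) :=
    (Continuous.continuousOn (by fun_prop)).integrableOn_compact isCompact_Icc
  refine (setIntegral_mono_on hI1 hI2 measurableSet_Icc hconv).trans ?_
  have e2 : ∫ z in Set.Icc (-h) h, (Real.cosh (a * h) + z * (Real.sinh (a * h) / h))
      = 2 * h * Real.cosh (a * h) := by
    rw [integral_Icc_eq_integral_Ioc, ← intervalIntegral.integral_of_le (by linarith)]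
    have hA : IntervalIntegrable (fun _ : ℝ => Real.cosh (a * h)) volume (-h) h :=
      intervalIntegrable_const
    have hB : IntervalIntegrable (fun z : ℝ => z * (Real.sinh (a * h) / h)) volume (-h) h :=
      Continuous.intervalIntegrable (by fun_prop) _ _
    rw [intervalIntegral.integral_add hA hB,
      intervalIntegral.integral_const, intervalIntegral.integral_mul_const, integral_id]
    simp only [smul_eq_mul]
    ring
  rw [e2]
  have h4 := Real.cosh_le_exp_half_sq (a * h)
  have h5 : (a * h) ^ 2 / 2 = a ^ 2 * h ^ 2 / 2 := by ring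
  rw [h5] at h4
  exact mul_le_mul_of_nonneg_left h4 (by linarith)

end SignSB
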