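import Pool.Agent.Helper719.Signs.Defs
import Pool.Agent.Helper719.Signs.P_int_exp

open MeasureTheory Real ProbabilityTheory
open scoped ENNReal BigOperators

namespace SignSB



theorem tail_one {T : Type} [Fintype T] (φ : T → ℝ) (M h l : ℝ) (hM : 0 < M) (hh : 0 < h) (hl : 0 < l)
    (hφ : ∑ i, φ i ^ 2 ≤ M) :
    volume {z : T → ℝ | (∀ i, |z i| ≤ h) ∧ l < ∑ i, z i * φ i} ≤
      ENNReal.ofReal ((2 * h)^(Fintype.card T) * Real.exp (-l^2 / (2 * h^2 * M))) := by
  set t : ℝ := l / (h ^ 2 * M) with ht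
  have ht0 : 0 < t := by positivity
  set ind : T → ℝ → ℝ := fun i => Set.indicator (Set.Icc (-h) h) (fun z => Real.exp (t * φ i * z))
    with hind
  have hindnn : ∀ i z, 0 ≤ ind i z := fun i z =>
    Set.indicator_nonneg (fun _ _ => (Real.exp_pos _).le) z
  have hindint : ∀ i, Integrable (ind i) (volume : Measure ℝ) := by
    intro i
    have hc : Continuous (fun z : ℝ => Real.exp (t * φ i * z)) := by fun_prop
    exact (hc.continuousOn.integrableOn_Icc).integrable_indicator measurableSet_Icc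
  set g : (T → ℝ) → ℝ := fun z => Real.exp (-(t * l)) * ∏ i, ind i (z i) with hg
  have hprodint : Integrable (fun z : T → ℝ => ∏ i, ind i (z i)) volume :=
    Integrable.fintype_prod hindint
  have hgint : Integrable g volume := hprodint.const_mul _
  have hgnn : ∀ z, 0 ≤ g z := fun z =>
    mul_nonneg (Real.exp_pos _).le (Finset.prod_nonneg fun i _ => hindnn i _)
  have hsub : {z : T → ℝ | (∀ i, |z i| ≤ h) ∧ l < ∑ i, z i * φ i} ⊆
      {z | (1 : ℝ≥0∞) ≤ ENNReal.ofReal (g z)} := by
    rintro z ⟨hz1, hz2⟩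
    simp only [Set.mem_setOf_eq, ENNReal.one_le_ofReal]
    have e : ∏ i, ind i (z i) = Real.exp (∑ i, t * φ i * z i) := by
      rw [Real.exp_sum]
      refine Finset.prod_congr rfl fun i _ => ?_
      simp only [hind]
      rw [Set.indicator_of_mem]
      exact abs_le.mp (hz1 i)
    simp only [hg]
    rw [e, ← Real.exp_add]
    apply Real.one_le_exp
    have e2 : ∑ i, t * φ i * z i = t * ∑ i, z i * φ i := by
      rw [Finset.mul_sum]
      exact Finset.sum_congr rfl fun i _ => by ring
    rw [e2]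
    nlinarith
  have hmark := mul_meas_ge_le_lintegral₀
    (μ := (volume : Measure (T → ℝ))) (f := fun z => ENNReal.ofReal (g z))
    hgint.aestronglyMeasurable.aemeasurable.ennreal_ofReal 1
  rw [one_mul, ← ofReal_integral_eq_lintegral_ofReal hgint (Filter.Eventually.of_forall hgnn)] at hmark
  refine (measure_mono hsub).trans (hmark.trans (ENNReal.ofReal_le_ofReal ?_))
  have e3 : ∫ z, g z = Real.exp (-(t * l)) * ∏ i, ∫ z, ind i z := by
    simp only [hg]
    rw [integral_const_mul, integral_fintype_prod_volume_eq_prod]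
  rw [e3]
  have hb : ∀ i, ∫ z, ind i z ≤ 2 * h * Real.exp ((t * φ i)^2 * h^2 / 2) := fun i =>
    int_exp h (t * φ i) hh
  have hprod : ∏ i, ∫ z, ind i z ≤ ∏ i, (2 * h * Real.exp ((t * φ i)^2 * h^2 / 2)) :=
    Finset.prod_le_prod (fun i _ => integral_nonneg (hindnn i)) fun i _ => hb i
  have e4 : ∏ i, (2 * h * Real.exp ((t * φ i)^2 * h^2 / 2)) =
      (2 * h) ^ (Fintype.card T) * Real.exp (t ^ 2 * h ^ 2 / 2 * ∑ i, φ i ^ 2) := by
    rw [Finset.prod_mul_distrib, Finset.prod_const, Finset.card_univ, ← Real.exp_sum, Finset.mul_sum]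
    congr 2
    exact Finset.sum_congr rfl fun i _ => by ring
  calc Real.exp (-(t * l)) * ∏ i, ∫ z, ind i z
      ≤ Real.exp (-(t * l)) * ((2 * h) ^ (Fintype.card T) *
          Real.exp (t ^ 2 * h ^ 2 / 2 * ∑ i, φ i ^ 2)) := by
        rw [← e4]
        exact mul_le_mul_of_nonneg_left hprod (Real.exp_pos _).le
    _ ≤ Real.exp (-(t * l)) * ((2 * h) ^ (Fintype.card T) *
          Real.exp (t ^ 2 * h ^ 2 / 2 * M)) := by
        gcongr
    _ = (2 * h) ^ (Fintype.card T) * (Real.exp (-(t * l)) * Real.exp (t ^ 2 * h ^ 2 / 2 * M)) := by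
        ring
    _ = (2 * h) ^ (Fintype.card T) * Real.exp (-l^2 / (2 * h^2 * M)) := by
        rw [← Real.exp_add]
        congr 2
        rw [ht]
        field_simp
        ring

end SignSB
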