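import Pool.Agent.Helper719.Signs.Defs
import Pool.Agent.Helper719.Signs.P_tail_one

open MeasureTheory Real ProbabilityTheory
open scoped ENNReal BigOperators

namespace SignSB



theorem vol_low {X T : Type} [Fintype X] [Fintype T] (φ : T → X → ℝ) (M h l : ℝ) (hM : 0 < M)
    (hh : 0 < h) (hl : 0 < l) (hφ : ∀ x, ∑ i, φ i x ^ 2 ≤ M)
    (hX : 2 * Fintype.card X * Real.exp (-l^2 / (2 * h^2 * M)) ≤ 1 / 2) :
    ENNReal.ofReal ((2 * h)^(Fintype.card T) / 2) ≤ volume {z : T → ℝ | ∀ x, |∑ i, z i * φ i x| ≤ l} := by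
  set V : ℝ := (2 * h) ^ (Fintype.card T) with hVdef
  set E : ℝ := Real.exp (-l^2 / (2 * h^2 * M)) with hE
  have hV0 : 0 ≤ V := by positivity
  have hE0 : 0 ≤ E := (Real.exp_pos _).le
  set G : Set (T → ℝ) := {z : T → ℝ | ∀ x, |∑ i, z i * φ i x| ≤ l} with hG
  set B1 : X → Set (T → ℝ) := fun x => {z : T → ℝ | (∀ i, |z i| ≤ h) ∧ l < ∑ i, z i * φ i x}
    with hB1
  set B2 : X → Set (T → ℝ) := fun x => {z : T → ℝ | (∀ i, |z i| ≤ h) ∧ l < ∑ i, z i * (-φ i x)}
    with hB2
  have hQ : volume {z : T → ℝ | ∀ i, |z i| ≤ h} = ENNReal.ofReal V := by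
    have e1 : {z : T → ℝ | ∀ i, |z i| ≤ h} = Set.pi Set.univ (fun _ : T => Set.Icc (-h) h) := by
      ext z
      simp only [Set.mem_setOf_eq, Set.mem_univ_pi, Set.mem_Icc, abs_le]
    rw [e1, volume_pi_pi]
    simp only [Real.volume_Icc, Finset.prod_const, Finset.card_univ]
    rw [hVdef, ENNReal.ofReal_pow (by positivity)]
    congr 2
    ring
  have hsub : {z : T → ℝ | ∀ i, |z i| ≤ h} ⊆ G ∪ ((⋃ x, B1 x) ∪ (⋃ x, B2 x)) := by
    intro z hz
    by_cases hzG : z ∈ G
    · exact Or.inl hzG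
    · right
      rw [hG, Set.mem_setOf_eq] at hzG
      push Not at hzG
      obtain ⟨x, hx⟩ := hzG
      rcases lt_abs.mp hx with h1 | h1
      · left
        exact Set.mem_iUnion.mpr ⟨x, hz, h1⟩
      · right
        refine Set.mem_iUnion.mpr ⟨x, hz, ?_⟩
        have : ∑ i, z i * (-φ i x) = -∑ i, z i * φ i x := by
          rw [← Finset.sum_neg_distrib]
          exact Finset.sum_congr rfl (fun i _ => by ring)
        rw [this]
        exact h1
  have hb1 : volume (⋃ x, B1 x) ≤ ENNReal.ofReal (Fintype.card X * (V * E)) := by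
    calc volume (⋃ x, B1 x) ≤ ∑ x, volume (B1 x) := measure_iUnion_fintype_le _ _
      _ ≤ ∑ _x : X, ENNReal.ofReal (V * E) := by
          refine Finset.sum_le_sum (fun x _ => ?_)
          exact tail_one (fun i => φ i x) M h l hM hh hl (hφ x)
      _ = ENNReal.ofReal (Fintype.card X * (V * E)) := by
          rw [Finset.sum_const, Finset.card_univ, nsmul_eq_mul,
            ENNReal.ofReal_mul (Nat.cast_nonneg _), ENNReal.ofReal_natCast]
  have hb2 : volume (⋃ x, B2 x) ≤ ENNReal.ofReal (Fintype.card X * (V * E)) := by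
    calc volume (⋃ x, B2 x) ≤ ∑ x, volume (B2 x) := measure_iUnion_fintype_le _ _
      _ ≤ ∑ _x : X, ENNReal.ofReal (V * E) := by
          refine Finset.sum_le_sum (fun x _ => ?_)
          refine tail_one (fun i => -φ i x) M h l hM hh hl ?_
          simpa using hφ x
      _ = ENNReal.ofReal (Fintype.card X * (V * E)) := by
          rw [Finset.sum_const, Finset.card_univ, nsmul_eq_mul,
            ENNReal.ofReal_mul (Nat.cast_nonneg _), ENNReal.ofReal_natCast]
  have hnn : 0 ≤ (Fintype.card X : ℝ) * (V * E) := by positivity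
  have hsum : ENNReal.ofReal (V / 2) + ENNReal.ofReal (V / 2) ≤
      volume G + ENNReal.ofReal (V / 2) := by
    calc ENNReal.ofReal (V / 2) + ENNReal.ofReal (V / 2) = ENNReal.ofReal V := by
          rw [← ENNReal.ofReal_add (by positivity) (by positivity)]
          congr 1
          ring
      _ = volume {z : T → ℝ | ∀ i, |z i| ≤ h} := hQ.symm
      _ ≤ volume (G ∪ ((⋃ x, B1 x) ∪ (⋃ x, B2 x))) := measure_mono hsub
      _ ≤ volume G + volume ((⋃ x, B1 x) ∪ (⋃ x, B2 x)) := measure_union_le _ _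
      _ ≤ volume G + (volume (⋃ x, B1 x) + volume (⋃ x, B2 x)) :=
          add_le_add le_rfl (measure_union_le _ _)
      _ ≤ volume G + (ENNReal.ofReal (Fintype.card X * (V * E)) +
            ENNReal.ofReal (Fintype.card X * (V * E))) :=
          add_le_add le_rfl (add_le_add hb1 hb2)
      _ = volume G + ENNReal.ofReal (Fintype.card X * (V * E) + Fintype.card X * (V * E)) := by
          rw [ENNReal.ofReal_add hnn hnn]
      _ ≤ volume G + ENNReal.ofReal (V / 2) := by
          refine add_le_add le_rfl (ENNReal.ofReal_le_ofReal ?_)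
          have := mul_le_mul_of_nonneg_left hX hV0
          linarith
  exact (ENNReal.add_le_add_iff_right ENNReal.ofReal_ne_top).mp hsum

end SignSB
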