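import Pool.Agent.Helper719.Signs.Defs
import Pool.Agent.Helper719.Signs.P_vol_low
import Pool.Agent.Helper719.Signs.P_fibre
import Pool.Agent.Helper719.Signs.P_box_lift

open MeasureTheory Real ProbabilityTheory
open scoped ENNReal BigOperators

namespace SignSB



theorem comb {ι X : Type} [Fintype ι] [DecidableEq ι] [Fintype X] [Nonempty X] (φ : ι → X → ℝ) (S : Finset ι)
    (b : ι → ℝ) (δ l κ η M : ℝ) (hδ : 0 < δ) (hl : 0 < l) (hκ : 0 < κ) (hη : 0 < η) (hM : 0 < M)
    (hb : ∀ i ∈ S, δ ≤ |b i|)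
    (hV : volume {v : ι → ℝ | ∀ x, |∑ i, v i * φ i x| ≤ 1} ≤ ENNReal.ofReal (κ ^ Fintype.card ι))
    (hφ : ∀ x, ∑ i, φ i x ^ 2 ≤ M)
    (hX : 2 * Fintype.card X * Real.exp (-1 / (2 * η^2 * M)) ≤ 1 / 2)
    (hlift : ∀ t, t ⊆ S → ∃ v : ι → ℝ, (∀ i ∈ S, v i = if i ∈ t then b i else - b i) ∧
      ∀ x, |∑ i, v i * φ i x| ≤ l) :
    δ ^ S.card * (η * l) ^ (Fintype.card ι - S.card) / 2 ≤ (κ * l) ^ Fintype.card ι := by
  have hfib := fibre φ S (Metric.closedBall 0 δ) Metric.isClosed_closedBall.measurableSet l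
    (fun y hy => box_lift φ S b δ l hδ hb hlift y (fun i => by
      rw [mem_closedBall_zero_iff, pi_norm_le_iff_of_nonneg hδ.le] at hy
      exact hy i))
  have hvB : volume (Metric.closedBall (0 : {i // i ∈ S} → ℝ) δ)
      = ENNReal.ofReal ((2 * δ) ^ S.card) := by
    rw [Real.volume_pi_closedBall _ hδ.le, Fintype.card_coe]
  have hcardT : Fintype.card {i // i ∉ S} = Fintype.card ι - S.card := by
    rw [Fintype.card_subtype_compl, Fintype.card_coe]
  have hlow := vol_low (X := X) (T := {i // i ∉ S}) (fun i x => φ i.1 x) M (η * l) l hM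
    (mul_pos hη hl) hl (fun x => by
      refine le_trans ?_ (hφ x)
      have h1 : ∑ i ∈ Sᶜ, φ i x ^ 2 = ∑ i : {i // i ∉ S}, φ i.1 x ^ 2 :=
        Finset.sum_subtype Sᶜ (fun i => Finset.mem_compl) (fun i => φ i x ^ 2)
      rw [← h1]
      exact Finset.sum_le_sum_of_subset_of_nonneg (Finset.subset_univ _)
        (fun i _ _ => sq_nonneg _)) (by
      have h1 : -l ^ 2 / (2 * (η * l) ^ 2 * M) = -1 / (2 * η ^ 2 * M) := by
        field_simp
      rw [h1]; exact hX)
  rw [hcardT] at hlow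
  open scoped Pointwise in
  have hW : volume {v : ι → ℝ | ∀ x, |∑ i, v i * φ i x| ≤ 2 * l}
      ≤ ENNReal.ofReal ((2 * l) ^ Fintype.card ι) * ENNReal.ofReal (κ ^ Fintype.card ι) := by
    have hsub : {v : ι → ℝ | ∀ x, |∑ i, v i * φ i x| ≤ 2 * l}
        ⊆ (2 * l) • {v : ι → ℝ | ∀ x, |∑ i, v i * φ i x| ≤ 1} := by
      intro v hv
      refine Set.mem_smul_set.2 ⟨(2 * l)⁻¹ • v, ?_, ?_⟩
      · intro x
        have h1 : ∑ i, ((2 * l)⁻¹ • v) i * φ i x = (2 * l)⁻¹ * ∑ i, v i * φ i x := by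
          rw [Finset.mul_sum]
          apply Finset.sum_congr rfl
          intro i _
          rw [Pi.smul_apply, smul_eq_mul]; ring
        rw [h1, abs_mul, abs_of_pos (inv_pos.2 (by positivity : 0 < 2 * l)),
          inv_mul_le_iff₀ (by positivity), mul_one]
        exact hv x
      · rw [smul_smul, mul_inv_cancel₀ (by positivity), one_smul]
    refine (measure_mono hsub).trans ?_
    rw [Measure.addHaar_smul, Module.finrank_fintype_fun_eq_card,
      abs_of_nonneg (by positivity)]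
    exact mul_le_mul_right hV _
  have hchain : ENNReal.ofReal ((2 * δ) ^ S.card)
      * ENNReal.ofReal ((2 * (η * l)) ^ (Fintype.card ι - S.card) / 2)
      ≤ ENNReal.ofReal ((2 * l) ^ Fintype.card ι) * ENNReal.ofReal (κ ^ Fintype.card ι) := by
    rw [← hvB]
    exact (mul_le_mul_right hlow _).trans (hfib.trans hW)
  rw [← ENNReal.ofReal_mul (by positivity), ← ENNReal.ofReal_mul (by positivity),
    ENNReal.ofReal_le_ofReal_iff (by positivity)] at hchain
  have hkN : S.card ≤ Fintype.card ι := Finset.card_le_univ S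
  obtain ⟨j, hj⟩ : ∃ j, Fintype.card ι = S.card + j := ⟨Fintype.card ι - S.card, by omega⟩
  have hj' : Fintype.card ι - S.card = j := by omega
  rw [hj'] at hchain ⊢
  rw [hj] at hchain ⊢
  have h2 : (2 * δ) ^ S.card * ((2 * (η * l)) ^ j / 2)
      = 2 ^ (S.card + j) * (δ ^ S.card * (η * l) ^ j / 2) := by
    rw [mul_pow, mul_pow, pow_add]; ring
  have h3 : (2 * l) ^ (S.card + j) * κ ^ (S.card + j)
      = 2 ^ (S.card + j) * (κ * l) ^ (S.card + j) := by
    rw [mul_pow, mul_pow]; ring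
  rw [h2, h3] at hchain
  exact le_of_mul_le_mul_left hchain (by positivity)

end SignSB
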