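import Pool.Agent.Helper719.Signs.Defs
import Pool.Agent.Helper719.Signs.P_comb
open MeasureTheory Real ProbabilityTheory
open scoped ENNReal BigOperators

namespace SignSB

theorem no_large (θ δ K CX c1 : ℝ) (hθ : 0 < θ) (hδ : 0 < δ) (hK : 0 < K) (hCX : 0 < CX) (hc1 : 0 < c1) :
    ∃ μ : ℝ, 0 < μ ∧ ∀ (X ι : Type) [Fintype X] [Nonempty X] [Fintype ι] [DecidableEq ι] [Nonempty ι]
      (φ : ι → X → ℝ) (Q n : ℝ), 0 < Q → 1 ≤ n → (∀ x, ∑ i, φ i x ^ 2 ≤ c1 * Q^2 / n) →
      Real.log (2 * Fintype.card X) + 1 ≤ CX * n →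
      volume {v : ι → ℝ | ∀ x, |∑ i, v i * φ i x| ≤ 1} ≤ ENNReal.ofReal ((K * Q⁻¹) ^ Fintype.card ι) →
      ∀ S : Finset ι, θ * Fintype.card ι ≤ S.card → ∀ b : ι → ℝ, (∀ i ∈ S, δ ≤ |b i|) →
      ¬ (∀ t, t ⊆ S → ∃ v : ι → ℝ, (∀ i ∈ S, v i = if i ∈ t then b i else - b i) ∧
        ∀ x, |∑ i, v i * φ i x| ≤ μ * Q) := by
  set c0 : ℝ := min 1 (Real.sqrt (1 / (2 * c1 * CX))) with hc0
  have hc0p : 0 < c0 := lt_min one_pos (Real.sqrt_pos.2 (by positivity))
  have hc01 : c0 ≤ 1 := min_le_left _ _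
  have hc0s : c0^2 ≤ 1 / (2 * c1 * CX) := by
    calc c0^2 ≤ (Real.sqrt (1 / (2 * c1 * CX)))^2 := by
          apply pow_le_pow_left₀ hc0p.le (min_le_right _ _)
      _ = _ := Real.sq_sqrt (by positivity)
  set ρ : ℝ := c0 / (4 * (K + 1)) with hρ
  have hρ0 : 0 < ρ := by positivity
  have hρ1 : ρ ≤ 1 := by
    rw [hρ, div_le_one (by positivity)]
    linarith
  refine ⟨δ * ρ ^ (1/θ), by positivity, ?_⟩
  intro X ι _ _ _ _ _ φ Q n hQ hn hφ hX hV S hS b hb hlift
  have hn0 : 0 < n := by linarith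
  set μ : ℝ := δ * ρ ^ (1/θ) with hμ
  have hμ0 : 0 < μ := by positivity
  have hX2 : 2 * (Fintype.card X : ℝ) * Real.exp (-1 / (2 * (c0 / Q)^2 * (c1 * Q^2 / n))) ≤ 1 / 2 := by
    have e1 : -1 / (2 * (c0 / Q)^2 * (c1 * Q^2 / n)) = -(n / (2 * c1 * c0^2)) := by
      field_simp
    have hcard : (0:ℝ) < Fintype.card X := by exact_mod_cast Fintype.card_pos
    have e2 : CX * n ≤ n / (2 * c1 * c0^2) := by
      rw [le_div_iff₀ (by positivity)]
      have := (le_div_iff₀ (by positivity)).1 hc0s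
      calc CX * n * (2 * c1 * c0^2) = n * (c0^2 * (2 * c1 * CX)) := by ring
        _ ≤ n * 1 := by gcongr
        _ = n := mul_one _
    have e3 : Real.log (2 * Fintype.card X) + Real.log 2 ≤ n / (2 * c1 * c0^2) := by
      have := Real.log_two_lt_d9
      linarith
    rw [e1]
    have e4 : 2 * (2 * (Fintype.card X : ℝ)) ≤ Real.exp (n / (2 * c1 * c0^2)) := by
      rw [← Real.log_le_iff_le_exp (by positivity), Real.log_mul (by norm_num) (by positivity)]
      linarith
    rw [Real.exp_neg]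
    have e5 : 0 < Real.exp (n / (2 * c1 * c0^2)) := Real.exp_pos _
    rw [← div_eq_mul_inv, div_le_div_iff₀ e5 (by norm_num)]
    linarith
  have hmain := comb φ S b δ (μ * Q) (K * Q⁻¹) (c0 / Q) (c1 * Q^2 / n) hδ (by positivity) (by positivity)
    (by positivity) (by positivity) hb hV hφ hX2 hlift
  have hN : 1 ≤ Fintype.card ι := Fintype.card_pos
  have hkN : S.card ≤ Fintype.card ι := Finset.card_le_univ S
  have e1 : c0 / Q * (μ * Q) = c0 * μ := by field_simp
  have e2 : K * Q⁻¹ * (μ * Q) = K * μ := by field_simp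
  rw [e1, e2] at hmain
  have e3 : (K * μ)^(Fintype.card ι) = K^(Fintype.card ι) * μ^S.card * μ^(Fintype.card ι - S.card) := by
    rw [mul_pow, mul_assoc, ← pow_add]
    congr 2
    omega
  have e4 : δ ^ S.card * c0^(Fintype.card ι - S.card) / 2 ≤ K^(Fintype.card ι) * μ^S.card := by
    have h1 : δ ^ S.card * (c0 * μ)^(Fintype.card ι - S.card) / 2 =
        (δ ^ S.card * c0^(Fintype.card ι - S.card) / 2) * μ^(Fintype.card ι - S.card) := by
      rw [mul_pow]
      ring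
    rw [h1, e3] at hmain
    exact le_of_mul_le_mul_right hmain (by positivity)
  have e5 : μ^S.card ≤ δ^S.card * ρ^(Fintype.card ι) := by
    rw [hμ, mul_pow]
    apply mul_le_mul_of_nonneg_left _ (by positivity)
    rw [← Real.rpow_natCast, ← Real.rpow_mul hρ0.le, ← Real.rpow_natCast]
    apply Real.rpow_le_rpow_of_exponent_ge hρ0 hρ1
    rw [one_div, inv_mul_eq_div, le_div_iff₀ hθ]
    linarith
  have e6 : c0^(Fintype.card ι - S.card) / 2 ≤ K^(Fintype.card ι) * ρ^(Fintype.card ι) := by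
    have h1 : δ ^ S.card * (c0^(Fintype.card ι - S.card) / 2) ≤
        δ ^ S.card * (K^(Fintype.card ι) * ρ^(Fintype.card ι)) := by
      calc δ ^ S.card * (c0^(Fintype.card ι - S.card) / 2) =
          δ ^ S.card * c0^(Fintype.card ι - S.card) / 2 := by ring
        _ ≤ K^(Fintype.card ι) * μ^S.card := e4
        _ ≤ K^(Fintype.card ι) * (δ^S.card * ρ^(Fintype.card ι)) := by gcongr
        _ = _ := by ring
    exact le_of_mul_le_mul_left h1 (by positivity)
  have e7 : K^(Fintype.card ι) * ρ^(Fintype.card ι) ≤ (c0 / 4)^(Fintype.card ι) := by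
    rw [← mul_pow]
    apply pow_le_pow_left₀ (by positivity)
    rw [hρ]
    rw [mul_div_assoc', div_le_div_iff₀ (by positivity) (by norm_num)]
    nlinarith
  have e8 : c0^(Fintype.card ι) ≤ c0^(Fintype.card ι - S.card) :=
    pow_le_pow_of_le_one hc0p.le hc01 (by omega)
  have e9 : (c0 / 4)^(Fintype.card ι) ≤ c0^(Fintype.card ι) / 4 := by
    rw [div_pow]
    apply div_le_div_of_nonneg_left (by positivity) (by norm_num)
    calc (4:ℝ) = 4^1 := by norm_num
      _ ≤ 4^(Fintype.card ι) := pow_le_pow_right₀ (by norm_num) hN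
  have e10 : 0 < c0^(Fintype.card ι) := by positivity
  linarith

end SignSB
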