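import Pool.Agent.Helper719.Signs.Defs

open MeasureTheory Real ProbabilityTheory
open scoped ENNReal BigOperators

namespace SignSB



theorem count_small (ε : ℝ) (hε : 0 < ε) : ∃ θ : ℝ, 0 < θ ∧ θ ≤ 1 ∧ ∀ (ι : Type) [Fintype ι] [DecidableEq ι]
    (F : Finset (Finset ι)), (∀ s ∈ F, (s.card : ℝ) < θ * Fintype.card ι) →
      (F.card : ℝ) ≤ (2:ℝ)^(ε * Fintype.card ι) := by
  set c : ℝ := Real.exp (ε / 2 * Real.log 2) with hc
  have hlog2 : 0 < Real.log 2 := Real.log_pos one_lt_two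
  have hc1 : 1 < c := Real.one_lt_exp_iff.mpr (by positivity)
  have hc0 : 0 < c := Real.exp_pos _
  set x : ℝ := min 1 (c - 1) with hx
  have hx0 : 0 < x := lt_min one_pos (by linarith)
  have hx1 : x ≤ 1 := min_le_left _ _
  have hx2 : x + 1 ≤ c := by
    have : x ≤ c - 1 := min_le_right _ _
    linarith
  set L : ℝ := -Real.log x with hL
  have hL0 : 0 ≤ L := by
    have := Real.log_nonpos hx0.le hx1
    rw [hL]; linarith
  have hxL : x = Real.exp (-L) := by
    rw [hL, neg_neg, Real.exp_log hx0]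
  set θ : ℝ := min 1 ((ε / 2 * Real.log 2) / (1 + L)) with hθ
  have hθ0 : 0 < θ := lt_min one_pos (by positivity)
  have hθL : θ * L ≤ ε / 2 * Real.log 2 := by
    have h1 : θ ≤ (ε / 2 * Real.log 2) / (1 + L) := min_le_right _ _
    have h2 : θ * (1 + L) ≤ ε / 2 * Real.log 2 := by
      rwa [le_div_iff₀ (by linarith)] at h1
    nlinarith
  refine ⟨θ, hθ0, min_le_left _ _, ?_⟩
  intro ι _ _ F hF
  set N : ℕ := Fintype.card ι with hN
  have hterm : ∀ s ∈ F, (c ^ N)⁻¹ ≤ x ^ s.card * (1:ℝ) ^ ((Finset.univ : Finset ι).card - s.card) := by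
    intro s hs
    have h1 := hF s hs
    have e1 : (c ^ N)⁻¹ = Real.exp (-(N * (ε / 2 * Real.log 2))) := by
      rw [hc, ← Real.exp_nat_mul, ← Real.exp_neg]
    have e2 : x ^ s.card = Real.exp (s.card * (-L)) := by
      conv_lhs => rw [hxL]
      rw [← Real.exp_nat_mul]
    rw [one_pow, mul_one, e1, e2, Real.exp_le_exp]
    have hNn : (0:ℝ) ≤ N := Nat.cast_nonneg _
    have h2 : (s.card : ℝ) * L ≤ θ * N * L := mul_le_mul_of_nonneg_right h1.le hL0
    have h3 : θ * L * N ≤ ε / 2 * Real.log 2 * N := mul_le_mul_of_nonneg_right hθL hNn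
    nlinarith
  have hsum : ∑ s ∈ F, x ^ s.card * (1:ℝ) ^ ((Finset.univ : Finset ι).card - s.card) ≤
      (x + 1) ^ (Finset.univ : Finset ι).card := by
    rw [← Finset.sum_pow_mul_eq_add_pow x 1 Finset.univ]
    refine Finset.sum_le_sum_of_subset_of_nonneg ?_ fun s _ _ => by positivity
    intro s _
    exact Finset.mem_powerset.mpr (Finset.subset_univ s)
  have hcard : (Finset.univ : Finset ι).card = N := rfl
  have h4 : (F.card : ℝ) * (c ^ N)⁻¹ ≤ c ^ N := by
    calc (F.card : ℝ) * (c ^ N)⁻¹ = ∑ s ∈ F, (c ^ N)⁻¹ := by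
          rw [Finset.sum_const, nsmul_eq_mul]
      _ ≤ ∑ s ∈ F, x ^ s.card * (1:ℝ) ^ ((Finset.univ : Finset ι).card - s.card) :=
          Finset.sum_le_sum hterm
      _ ≤ (x + 1) ^ N := hsum
      _ ≤ c ^ N := pow_le_pow_left₀ (by linarith) hx2 N
  have hcN : 0 < c ^ N := pow_pos hc0 N
  have h5 : (F.card : ℝ) ≤ c ^ N * c ^ N := by
    rwa [mul_inv_le_iff₀ hcN] at h4
  refine h5.trans (le_of_eq ?_)
  rw [Real.rpow_def_of_pos two_pos, hc, ← Real.exp_nat_mul, ← Real.exp_add]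
  congr 1
  ring

end SignSB
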