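import Pool.Agent.Helper719.Signs.Defs
import Pool.Agent.Helper719.Signs.P_count_small

open MeasureTheory Real ProbabilityTheory
open scoped ENNReal BigOperators

namespace SignSB



theorem shatter_large (ε : ℝ) (hε : 0 < ε) : ∃ θ : ℝ, 0 < θ ∧ θ ≤ 1 ∧ ∀ (ι : Type) [Fintype ι] [DecidableEq ι]
    (A : Finset (Finset ι)), (2:ℝ)^(ε * Fintype.card ι) < (A.card : ℝ) →
      ∃ S : Finset ι, θ * Fintype.card ι ≤ (S.card : ℝ) ∧ A.Shatters S := by
  obtain ⟨θ, hθ0, hθ1, hθ⟩ := count_small ε hε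
  refine ⟨θ, hθ0, hθ1, ?_⟩
  intro ι _ _ A hA
  by_contra hcon
  push Not at hcon
  have h1 : (A.shatterer.card : ℝ) ≤ (2:ℝ)^(ε * Fintype.card ι) := by
    apply hθ ι A.shatterer
    intro s hs
    have hs' : A.Shatters s := Finset.mem_shatterer.1 hs
    by_contra h
    push Not at h
    exact hcon s h hs'
  have h2 : (A.card : ℝ) ≤ (A.shatterer.card : ℝ) := by
    exact_mod_cast Finset.card_le_card_shatterer A
  linarith

end SignSB
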