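import Pool.Agent.Helper719.Trig.Vol
import Pool.Agent.Helper719.Trig.P_L1_le_L2
import Pool.Agent.Helper719.Trig.P_card_block
import Pool.Agent.Helper719.Trig.P_card_anti
import Pool.Agent.Helper719.Trig.P_card_freq
import Pool.Agent.Helper719.Signs.NoLarge
import Pool.Agent.Helper719.Signs.P_shatter_large

open MeasureTheory Real ProbabilityTheory
open scoped ENNReal BigOperators Pointwise

namespace TrigSB

open HypVol

theorem vol_gridT (d : ℕ) (hd : 3 ≤ d) : ∃ K CX : ℝ, 0 < K ∧ 0 < CX ∧ ∀ m : ℕ, 1 ≤ m →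
    Real.log (2 * Fintype.card (Gr d (2*m))) + 1 ≤ CX * ((2*m : ℕ):ℝ) ∧
    volume {v : (freq d m) × Fin 2 → ℝ | ∀ x : Gr d (2*m), |∑ i, v i * tbE i x| ≤ 1} ≤
      ENNReal.ofReal ((K * (Real.sqrt (2^(2*m) * ((2*m : ℕ):ℝ)^d))⁻¹)^
        (Fintype.card ((freq d m) × Fin 2))) := by
  obtain ⟨a, CH, ha, hCH, hH⟩ := H_boundE d (by omega)
  obtain ⟨c1, hc1, hshp⟩ := HypVol.shp_lower d (by omega)
  refine ⟨Real.sqrt 2 * (2 * π * Real.exp 1) *
        Real.exp (4 + 4 * (a + (3 + 3 * d)) * CH / (c1 / 2^(d-1))) * (Real.sqrt (2 * π * a))⁻¹ *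
      (Real.sqrt (2 * (c1 / 2^(d-1))))⁻¹, 3 + 3 * d, by positivity, by positivity, ?_⟩
  intro m hm
  have hn : 1 ≤ 2 * m := by omega
  have hm1 : (1:ℝ) ≤ m := by exact_mod_cast hm
  have hn1 : (1:ℝ) ≤ ((2*m : ℕ):ℝ) := by exact_mod_cast hn
  obtain ⟨f0, f1, f2, _⟩ := tbE_facts d m hm
  have hcardι : (Fintype.card ((freq d m) × Fin 2) : ℝ) = 2 * (2^(2*m) * shp d m) := by
    rw [Fintype.card_prod, Fintype.card_coe, Fintype.card_fin, card_freq]
    push_cast
    ring
  have hN : 2 * (c1 / 2^(d-1)) * (2^(2*m) * ((2*m : ℕ):ℝ)^(d-1)) ≤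
      (Fintype.card ((freq d m) × Fin 2) : ℝ) := by
    rw [hcardι]
    have h := hshp m hm
    calc 2 * (c1 / 2^(d-1)) * (2^(2*m) * ((2*m : ℕ):ℝ)^(d-1)) = 2 * (2^(2*m) * (c1 * (m:ℝ)^(d-1))) := by
          push_cast
          rw [mul_pow]
          field_simp
      _ ≤ _ := by gcongr
  have hX0 : Nonempty (Gr d (2*m)) := ⟨(fun _ => ⟨0, by positivity⟩, 0)⟩
  have hX : Real.log (2 * Fintype.card (Gr d (2*m))) + 1 ≤ (3 + 3 * d) * ((2*m : ℕ):ℝ) := by
    have e1 : (2 * Fintype.card (Gr d (2*m)) : ℝ) = 2^(2 + (2*m+2)*d) := by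
      have : Fintype.card (Gr d (2*m)) = (2^(2*m+2))^d * 2 := by
        rw [Fintype.card_prod, Fintype.card_fun, Fintype.card_fin, Fintype.card_fin,
          Fintype.card_fin]
      rw [this]
      push_cast
      rw [← pow_mul]
      ring
    rw [e1, Real.log_pow]
    have hlog2 : Real.log 2 ≤ 1 := by
      have := Real.log_two_lt_d9
      linarith
    have hd0 : (0:ℝ) ≤ d := by positivity
    calc ((2 + (2*m+2)*d : ℕ) : ℝ) * Real.log 2 + 1 ≤ ((2 + (2*m+2)*d : ℕ) : ℝ) * 1 + 1 := by gcongr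
      _ ≤ (3 + 3 * d) * ((2*m : ℕ):ℝ) := by
        push_cast
        nlinarith
  exact ⟨hX, HaarSB.vol_abs (X := Gr d (2*m)) (ι := (freq d m) × Fin 2) tbE f0 f1 f2 d (2*m) hd hn
    a (c1 / 2^(d-1)) (3 + 3 * d) CH ha (by positivity) (by positivity) hCH hN hX (hH m hm)⟩

theorem supNorm_congr {d m : ℕ} (c c' : (Fin d → ℤ) → ℂ) (h : ∀ k ∈ freq d m, c k = c' k) :
    supNorm m c = supNorm m c' := by
  unfold supNorm
  congr 1
  funext x
  congr 1
  refine Finset.sum_congr rfl fun l hl => ?_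
  unfold blockPoly
  refine Finset.sum_congr rfl fun k hk => ?_
  rw [h k (Finset.mem_biUnion.2 ⟨l, hl, hk⟩)]

theorem L1_le_one {d m : ℕ} (c : (Fin d → ℤ) → ℂ) (h : ∀ k ∈ freq d m, ‖c k‖ ≤ 1)
    (l : Fin d → ℕ) (hl : l ∈ Finset.Nat.antidiagonalTuple d m) :
    L1 c l ≤ Real.sqrt (2^(2*m)) := by
  refine (L1_le_L2 c l).trans (Real.sqrt_le_sqrt ?_)
  calc ∑ k ∈ block l, ‖c k‖^2 ≤ ∑ _k ∈ block l, (1:ℝ) := by
        refine Finset.sum_le_sum fun k hk => ?_
        have h1 := h k (Finset.mem_biUnion.2 ⟨l, hl, hk⟩)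
        have h2 := norm_nonneg (c k)
        nlinarith
    _ = 2^(2*m) := by
        rw [Finset.sum_const, card_block l hl, nsmul_eq_mul]
        push_cast
        ring

/-- the small ball inequality for all but `2^(εN)` of the sign patterns -/
theorem signs (d : ℕ) (hd : 3 ≤ d) (ε δ : ℝ) (hε : 0 < ε) (hδ : 0 < δ) :
    ∃ c : ℝ, 0 < c ∧ ∀ m : ℕ, 1 ≤ m → ∀ a : (Fin d → ℤ) → ℂ,
      (∀ k ∈ freq d m, δ ≤ ‖a k‖ ∧ ‖a k‖ ≤ 1) →
      (Set.ncard {u : Finset (Fin d → ℤ) | u ⊆ freq d m ∧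
        ((2 * m : ℕ) : ℝ)^(((d:ℝ) - 2) / 2) * supNorm m (fun k => if k ∈ u then a k else - a k) <
          c * ∑ l ∈ Finset.Nat.antidiagonalTuple d m, L1 (fun k => if k ∈ u then a k else - a k) l} : ℝ) ≤
        (2:ℝ)^(ε * (freq d m).card) := by
  obtain ⟨θ, hθ0, hθ1, hsh⟩ := SignSB.shatter_large ε hε
  obtain ⟨K, CX, hK, hCX, hvol⟩ := vol_gridT d hd
  obtain ⟨C1, hC1, hup⟩ := HypVol.shp_upper d (by omega)
  obtain ⟨μ, hμ, hno⟩ := SignSB.no_large (θ/2) (δ/2) K CX (2*C1) (by positivity) (by positivity) hK hCX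
    (by positivity)
  refine ⟨μ / (Real.sqrt 2 * C1), by positivity, ?_⟩
  intro m hm a hab
  have hn : 1 ≤ 2 * m := by omega
  have hm1 : (1:ℝ) ≤ m := by exact_mod_cast hm
  have hn1 : (1:ℝ) ≤ ((2*m : ℕ):ℝ) := by exact_mod_cast hn
  have hn0 : (0:ℝ) < ((2*m : ℕ):ℝ) := by linarith
  obtain ⟨-, -, f2, -⟩ := tbE_facts d m hm
  have hcardι : (Fintype.card ((freq d m) × Fin 2) : ℝ) = 2 * (2^(2*m) * shp d m) := by
    rw [Fintype.card_prod, Fintype.card_coe, Fintype.card_fin, card_freq]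
    push_cast
    ring
  have hcardf : (Fintype.card (freq d m) : ℝ) = 2^(2*m) * shp d m := by
    rw [Fintype.card_coe, card_freq]
    push_cast
    ring
  have hshpn : (shp d m : ℝ) ≤ C1 * ((2*m : ℕ):ℝ)^(d-1) := by
    have h := hup m hm
    have h2 : (m:ℝ)^(d-1) ≤ ((2*m : ℕ):ℝ)^(d-1) := by
      apply pow_le_pow_left₀ (by positivity)
      push_cast
      linarith
    exact h.trans (mul_le_mul_of_nonneg_left h2 hC1.le)
  have hpw : ((2*m : ℕ):ℝ)^(((d:ℝ) - 2) / 2) * Real.sqrt (((2*m : ℕ):ℝ)^d) = ((2*m : ℕ):ℝ)^(d-1) := by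
    rw [Real.sqrt_eq_rpow, ← Real.rpow_natCast, ← Real.rpow_natCast, ← Real.rpow_mul hn0.le,
      ← Real.rpow_add hn0]
    congr 1
    have : ((d - 1 : ℕ) : ℝ) = (d:ℝ) - 1 := by
      rw [Nat.cast_sub (by omega)]; simp
    rw [this]
    ring
  have hpos : 0 < ((2*m : ℕ):ℝ)^(((d:ℝ) - 2) / 2) := Real.rpow_pos_of_pos hn0 _
  have hpow : ((2*m : ℕ):ℝ)^(d-1) * ((2*m : ℕ):ℝ) = ((2*m : ℕ):ℝ)^d := by
    rw [← pow_succ]
    congr 1
    omega
  set Q : ℝ := Real.sqrt (2^(2*m) * ((2*m : ℕ):ℝ)^d) with hQ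
  have hQ0 : 0 < Q := Real.sqrt_pos.2 (by positivity)
  have hQ2 : Q^2 = 2^(2*m) * ((2*m : ℕ):ℝ)^d := Real.sq_sqrt (by positivity)
  -- transport to subsets of the subtype
  set sgn : Finset (Fin d → ℤ) → (Fin d → ℤ) → ℂ := fun u k => if k ∈ u then a k else - a k with hsgn
  set P : Finset (Fin d → ℤ) → Prop := fun u =>
    ((2 * m : ℕ) : ℝ)^(((d:ℝ) - 2) / 2) * supNorm m (sgn u) <
          μ / (Real.sqrt 2 * C1) * ∑ l ∈ Finset.Nat.antidiagonalTuple d m, L1 (sgn u) l with hP
  set A' : Set (Finset (freq d m)) := {u | P (u.map (Function.Embedding.subtype _))} with hA'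
  have hfin : A'.Finite := Set.toFinite _
  have hle : Set.ncard {u : Finset (Fin d → ℤ) | u ⊆ freq d m ∧ P u} ≤ Set.ncard A' := by
    refine Set.ncard_le_ncard_of_injOn (fun u => u.subtype (fun k => k ∈ freq d m)) ?_ ?_ hfin
    · rintro u ⟨hu1, hu2⟩
      have h1 : (u.subtype (fun k => k ∈ freq d m)).map (Function.Embedding.subtype _) = u := by
        rw [Finset.subtype_map]
        exact Finset.filter_true_of_mem fun k hk => hu1 hk
      show P _
      rw [h1]
      exact hu2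
    · rintro u ⟨hu1, -⟩ u' ⟨hu1', -⟩ huu
      have h1 : (u.subtype (fun k => k ∈ freq d m)).map (Function.Embedding.subtype _) = u := by
        rw [Finset.subtype_map]
        exact Finset.filter_true_of_mem fun k hk => hu1 hk
      have h2 : (u'.subtype (fun k => k ∈ freq d m)).map (Function.Embedding.subtype _) = u' := by
        rw [Finset.subtype_map]
        exact Finset.filter_true_of_mem fun k hk => hu1' hk
      have h3 : u.subtype (fun k => k ∈ freq d m) = u'.subtype (fun k => k ∈ freq d m) := huu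
      rw [← h1, ← h2, h3]
  have hgoal : ((Set.ncard {u : Finset (Fin d → ℤ) | u ⊆ freq d m ∧ P u} : ℕ) : ℝ) ≤
      (2:ℝ)^(ε * ((freq d m).card : ℝ)) := by
    refine le_trans (Nat.cast_le.2 hle) ?_
    by_contra hcon
    push_neg at hcon
    rw [Set.ncard_eq_toFinset_card A' hfin, ← Fintype.card_coe (freq d m)] at hcon
    obtain ⟨S, hS, hsha⟩ := hsh (freq d m) hfin.toFinset hcon
    have hshp0 : (0:ℝ) < shp d m := by
      obtain ⟨c2, hc2, hlo⟩ := HypVol.shp_lower d (by omega)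
      exact lt_of_lt_of_le (by positivity) (hlo m hm)
    have hne : Nonempty ((freq d m) × Fin 2) := by
      rw [← Fintype.card_pos_iff]
      have : (0:ℝ) < (Fintype.card ((freq d m) × Fin 2) : ℝ) := by
        rw [hcardι]; positivity
      exact_mod_cast this
    have hXne : Nonempty (Gr d (2*m)) := ⟨(fun _ => ⟨0, by positivity⟩, 0)⟩
    have hM : ∀ x : Gr d (2*m), ∑ β, (tbE (d := d) (m := m) β x)^2 ≤ 2 * C1 * Q^2 / ((2*m : ℕ):ℝ) := by
      intro x
      rw [f2 x, hcardι, hQ2, ← hpow]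
      have : 2 * C1 * (2^(2*m) * (((2*m : ℕ):ℝ)^(d-1) * ((2*m : ℕ):ℝ))) / ((2*m : ℕ):ℝ) =
          2 * (2^(2*m) * (C1 * ((2*m : ℕ):ℝ)^(d-1))) := by
        field_simp
      rw [this]
      gcongr
    -- coordinates of the coefficients
    set B : (freq d m) × Fin 2 → ℝ := fun β => if β.2 = 0 then (a β.1.1).re else (a β.1.1).im with hB
    set j : freq d m → Fin 2 := fun k => if δ/2 ≤ |(a k.1).re| then 0 else 1 with hj
    have hBj : ∀ k : freq d m, δ/2 ≤ |B (k, j k)| := by
      intro k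
      simp only [hB, hj]
      by_cases h : δ/2 ≤ |(a k.1).re|
      · simp [h]
      · have h1 := (hab k.1 k.2).1
        have h2 := Complex.norm_le_abs_re_add_abs_im (a k.1)
        simp only [h, if_false]
        push_neg at h
        norm_num
        linarith
    set emb : (freq d m) ↪ (freq d m) × Fin 2 := ⟨fun k => (k, j k), fun k k' h => (Prod.ext_iff.1 h).1⟩ with hemb
    refine hno (Gr d (2*m)) ((freq d m) × Fin 2) tbE Q ((2*m : ℕ):ℝ) hQ0 hn1 hM (hvol m hm).1 (hvol m hm).2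
      (S.map emb) ?_ B ?_ ?_
    · rw [Finset.card_map, hcardι]
      rw [hcardf] at hS
      linarith
    · intro i hi
      obtain ⟨k, hk, rfl⟩ := Finset.mem_map.1 hi
      exact hBj k
    · intro t ht
      obtain ⟨u, hu, hut⟩ := hsha (Finset.filter_subset (fun k => emb k ∈ t) S)
      rw [Set.Finite.mem_toFinset] at hu
      set U : Finset (Fin d → ℤ) := u.map (Function.Embedding.subtype _) with hU
      have hmemU : ∀ k : freq d m, k.1 ∈ U ↔ k ∈ u := by
        intro k
        rw [hU, Finset.mem_map]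
        constructor
        · rintro ⟨k', hk', h⟩
          have : k' = k := Subtype.ext h
          rwa [← this]
        · intro h
          exact ⟨k, h, rfl⟩
      refine ⟨fun β => if β.1 ∈ u then B β else - B β, ?_, ?_⟩
      · intro i hi
        obtain ⟨k, hk, rfl⟩ := Finset.mem_map.1 hi
        have : k ∈ u ↔ emb k ∈ t := by
          have h1 : k ∈ S ∩ u ↔ k ∈ S.filter (fun k => emb k ∈ t) := by rw [hut]
          rw [Finset.mem_inter, Finset.mem_filter] at h1
          exact ⟨fun h => (h1.1 ⟨hk, h⟩).2, fun h => (h1.2 ⟨hk, h⟩).2⟩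
        show (if k ∈ u then B (emb k) else - B (emb k)) = if emb k ∈ t then B (emb k) else - B (emb k)
        simp only [this]
      · intro x
        refine (sup_gridE d m _ x).trans ?_
        have hcoef : supNorm m (coef (fun β : (freq d m) × Fin 2 => if β.1 ∈ u then B β else - B β)) =
            supNorm m (sgn U) := by
          apply supNorm_congr
          intro k hk
          have h1 : coef (fun β : (freq d m) × Fin 2 => if β.1 ∈ u then B β else - B β) k =
              (((if (⟨k, hk⟩ : freq d m) ∈ u then B (⟨k, hk⟩, 0) else - B (⟨k, hk⟩, 0) : ℝ)) : ℂ) +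
              (((if (⟨k, hk⟩ : freq d m) ∈ u then B (⟨k, hk⟩, 1) else - B (⟨k, hk⟩, 1) : ℝ)) : ℂ) *
                Complex.I := by
            unfold coef
            rw [dif_pos hk]
          rw [h1]
          have h2 := hmemU ⟨k, hk⟩
          have hre : a k = ((B (⟨k, hk⟩, 0) : ℝ) : ℂ) + ((B (⟨k, hk⟩, 1) : ℝ) : ℂ) * Complex.I := by
            simp only [hB]
            norm_num
          by_cases h : (⟨k, hk⟩ : freq d m) ∈ u
          · have h3 : k ∈ U := h2.2 h
            simp only [hsgn, h, h3, if_true]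
            exact hre.symm
          · have h3 : k ∉ U := fun h' => h (h2.1 h')
            simp only [hsgn, h, h3, if_false]
            rw [hre]
            push_cast
            ring
        rw [hcoef]
        have hnorm : ∀ k ∈ freq d m, ‖sgn U k‖ ≤ 1 := by
          intro k hk
          simp only [hsgn]
          split_ifs
          · exact (hab k hk).2
          · rw [norm_neg]; exact (hab k hk).2
        have h1 : ((2*m : ℕ):ℝ)^(((d:ℝ) - 2) / 2) * supNorm m (sgn U) ≤
            ((2*m : ℕ):ℝ)^(((d:ℝ) - 2) / 2) *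
              (μ / Real.sqrt 2 * (Real.sqrt (2^(2*m)) * Real.sqrt (((2*m : ℕ):ℝ)^d))) := by
          have hu' : P U := hu
          refine (le_of_lt hu').trans ?_
          calc μ / (Real.sqrt 2 * C1) * ∑ l ∈ Finset.Nat.antidiagonalTuple d m, L1 (sgn U) l
              ≤ μ / (Real.sqrt 2 * C1) * (C1 * ((2*m : ℕ):ℝ)^(d-1) * Real.sqrt (2^(2*m))) := by
                apply mul_le_mul_of_nonneg_left _ (by positivity)
                calc ∑ l ∈ Finset.Nat.antidiagonalTuple d m, L1 (sgn U) l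
                    ≤ ∑ _l ∈ Finset.Nat.antidiagonalTuple d m, Real.sqrt (2^(2*m)) :=
                      Finset.sum_le_sum fun l hl => L1_le_one (sgn U) hnorm l hl
                  _ = (shp d m : ℝ) * Real.sqrt (2^(2*m)) := by
                      rw [Finset.sum_const, card_anti, nsmul_eq_mul]
                  _ ≤ _ := by gcongr
            _ = μ / Real.sqrt 2 * (((2*m : ℕ):ℝ)^(d-1) * Real.sqrt (2^(2*m))) := by
                field_simp
            _ = ((2*m : ℕ):ℝ)^(((d:ℝ) - 2) / 2) *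
              (μ / Real.sqrt 2 * (Real.sqrt (2^(2*m)) * Real.sqrt (((2*m : ℕ):ℝ)^d))) := by
                rw [← hpw]
                ring
        have h2 := le_of_mul_le_mul_left h1 hpos
        calc Real.sqrt 2 * supNorm m (sgn U)
            ≤ Real.sqrt 2 * (μ / Real.sqrt 2 * (Real.sqrt (2^(2*m)) * Real.sqrt (((2*m : ℕ):ℝ)^d))) := by
              gcongr
          _ = μ * Q := by
            rw [hQ, Real.sqrt_mul (by positivity)]
            field_simp
  exact hgoal

end TrigSB
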